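import Pool.Agent.H559.UH.Stm

set_option autoImplicit false

/-! # The density of the sieve at comparable points -/

open Finset Filter Topology
open Pool.Agent.T2H32.BF (V)
open Pool.Agent.H559.BS (Limit TT)

namespace Pool.Agent.H559.UH

namespace Dn

/-- the elementary inequalities -/
theorem core {v L l κ ε : ℝ} (h1 : |v * L - 1| ≤ min (ε / 2) (1 / 2)) (hL : 1 ≤ L)
    (hκ : 0 ≤ κ) (h2 : 3 * κ ≤ ε * L) (hl : L ≤ l) :
    (l ≤ κ + L → |v * l - 1| ≤ ε) ∧ (l ≤ 2 * L → v * l ≤ 3) := by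
  have a1 : |v * L - 1| ≤ ε / 2 := h1.trans (min_le_left _ _)
  have a2 : |v * L - 1| ≤ 1 / 2 := h1.trans (min_le_right _ _)
  obtain ⟨b1, b2⟩ := abs_le.1 a1
  obtain ⟨c1, c2⟩ := abs_le.1 a2
  have hL0 : 0 < L := by linarith
  have hv : 0 < v := by
    have h3 : 0 < v * L := by linarith
    exact pos_of_mul_pos_left h3 hL0.le
  have hv2 : v * L ≤ 3 / 2 := by linarith
  refine ⟨fun h => ?_, fun h => ?_⟩
  · have d1 : 0 ≤ v * (l - L) := mul_nonneg hv.le (by linarith)
    have d2 : v * (l - L) ≤ v * κ := mul_le_mul_of_nonneg_left (by linarith) hv.le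
    have d3 : v * κ ≤ ε / 2 := by
      have e1 : (v * κ) * L ≤ (ε / 2) * L := by
        calc (v * κ) * L = (v * L) * κ := by ring
          _ ≤ 3 / 2 * κ := mul_le_mul_of_nonneg_right hv2 hκ
          _ ≤ (ε / 2) * L := by linarith
      exact le_of_mul_le_mul_right e1 hL0
    rw [abs_le]
    constructor
    · have : v * l - 1 = (v * L - 1) + v * (l - L) := by ring
      linarith
    · have : v * l - 1 = (v * L - 1) + v * (l - L) := by ring
      linarith
  · have d1 : v * l ≤ v * (2 * L) := mul_le_mul_of_nonneg_left h hv.le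
    have d2 : v * (2 * L) = 2 * (v * L) := by ring
    linarith

end Dn

theorem t_dn : S_dn := by
  intro z hz K ε hK hε
  have hlog : Tendsto (fun n : ℕ => Real.log n) atTop atTop :=
    Real.tendsto_log_atTop.comp tendsto_natCast_atTop_atTop
  have hK1 : (1 : ℝ) ≤ K := by exact_mod_cast hK
  have hκ : 0 ≤ Real.log K := Real.log_nonneg hK1
  have hδ : 0 < min (ε / 2) (1 / 2) := lt_min (by linarith) (by norm_num)
  have e1 : ∀ᶠ n : ℕ in atTop, |V (z n) * Real.log n - 1| ≤ min (ε / 2) (1 / 2) := by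
    have h := (Metric.tendsto_nhds.1 hz.2) _ hδ
    filter_upwards [h] with n hn
    rw [Real.dist_eq] at hn
    exact hn.le
  have e2 := hlog.eventually_ge_atTop (max 1 (3 * Real.log K / ε))
  obtain ⟨n0, hn0⟩ := eventually_atTop.1 (e1.and (e2.and (eventually_ge_atTop 1)))
  refine ⟨n0, fun lo hlo hi hhi => ?_⟩
  obtain ⟨f1, f2, f3⟩ := hn0 lo hlo
  have g1 : 1 ≤ Real.log lo := (le_max_left _ _).trans f2
  have g2 : 3 * Real.log K ≤ ε * Real.log lo := by
    have h := (le_max_right _ _).trans f2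
    rw [div_le_iff₀ hε] at h
    linarith
  have hlo0 : (0 : ℝ) < lo := by exact_mod_cast f3
  have hhi0 : (0 : ℝ) < hi := by exact_mod_cast (f3.trans hhi)
  have g3 : Real.log lo ≤ Real.log hi := Real.log_le_log hlo0 (by exact_mod_cast hhi)
  obtain ⟨k1, k2⟩ := Dn.core f1 g1 hκ g2 g3
  refine ⟨fun h => k1 ?_, fun h => k2 ?_⟩
  · rw [← Real.log_mul (by linarith) hlo0.ne']
    exact Real.log_le_log hhi0 (by exact_mod_cast h)
  · have h3 : Real.log hi ≤ Real.log ((lo : ℝ) ^ 2) := Real.log_le_log hhi0 (by exact_mod_cast h)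
    rw [Real.log_pow] at h3
    exact_mod_cast h3

end Pool.Agent.H559.UH
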