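import Pool.Agent.H559.UH.Stm

set_option autoImplicit false

/-! # The counting engine for shifted tuples (helper596) -/

open Finset Filter Topology
open Pool.Agent.T2H32.BF (V)
open Pool.Agent.H559.BS (Limit TT)
open Pool.Agent.H559.HY (Arr evl rts Sg cnt RS Cut box)
open Pool.Agent.H559.SI (sh mxh le_mxh evl_sh box_sh Sg_sh)
open Pool.Agent.H559.PV (OK Gd Row)

namespace Pool.Agent.H559.UH

theorem En.gd {k : ℕ} (X : ℕ) (h : Fin k → ℕ) (p : ℕ) (hp : p.Prime) : Gd (sh X h) p := by
  intro i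
  refine ⟨1, by simp, ?_⟩
  unfold sh
  simp only [Fin.isValue, one_ne_zero, if_false]
  intro h3
  have := Int.le_of_dvd one_pos h3
  have h2 := hp.two_le
  omega

theorem En.row {k : ℕ} (X : ℕ) (h : Fin k → ℕ) (hh : Function.Injective h) : Row (sh X h) := by
  intro i i' hi heq
  have h1 := congrFun heq 0
  unfold sh at h1
  simp only [Fin.isValue, if_true] at h1
  have h2 : X + h i = X + h i' := by exact_mod_cast h1
  exact hi (hh (by omega))

theorem En.mxh_le {k : ℕ} (h : Fin k → ℕ) (M : ℕ) (hM : ∀ i, h i ≤ M) : mxh h ≤ k * M := by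
  unfold mxh
  calc ∑ i, h i ≤ ∑ _i : Fin k, M := sum_le_sum fun i _ => hM i
    _ = k * M := by simp

theorem t_en : S_en := by
  intro z W b hOK k A B n
  filter_upwards [hOK k 1 (A + 2) 0 B n (by omega), eventually_ge_atTop (k + 2)] with x a3 a4
  intro X hX h hh hhA y1 y2 hy0 hy1 hy2
  have hxA1 : 1 ≤ x ^ A := Nat.one_le_pow _ _ (by omega)
  have hpow : x ^ (A + 2) = x * x * x ^ A := by ring
  have hbox : sh X h ∈ box k 1 (x ^ (A + 2)) := by
    refine box_sh _ _ _ (Nat.one_le_pow _ _ (by omega)) ?_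
    have h1 := En.mxh_le h _ hhA
    calc X + mxh h ≤ x ^ A + k * x ^ A := by omega
      _ = (k + 1) * x ^ A := by ring
      _ ≤ (x * x) * x ^ A := Nat.mul_le_mul_right _ (by nlinarith)
      _ = x ^ (A + 2) := hpow.symm
  have hhi : ∀ i, X + y2 + h i ≤ x ^ (A + 2) := by
    intro i
    have h1 := hhA i
    have h2 : x ≤ x * x ^ A := Nat.le_mul_of_pos_right _ hxA1
    calc X + y2 + h i ≤ x ^ A + x * x ^ A + x ^ A := by omega
      _ = (x + 2) * x ^ A := by ring
      _ ≤ (x * x) * x ^ A := Nat.mul_le_mul_right _ (by nlinarith)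
      _ = x ^ (A + 2) := hpow.symm
  obtain ⟨b1, b2⟩ := a3 (sh X h) hbox (fun p hp _ => En.gd X h p hp) (En.row X h hh) y1 (y2 - y1)
    (fun i => X + y1 + h i) (fun i => X + y2 + h i) (by omega) (by omega)
    (fun i => by omega) hhi (fun m hm i => by
      rw [mem_Ioc] at hm
      rw [evl_sh]
      constructor
      · exact_mod_cast (by omega : X + y1 + h i ≤ X + m + h i)
      · exact_mod_cast (by omega : X + m + h i ≤ X + y2 + h i))
  rw [Sg_sh, Nat.cast_sub hy1] at b1 b2
  exact ⟨b1, b2⟩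

end Pool.Agent.H559.UH
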