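import Pool.Agent.H559.UH.Stm

set_option autoImplicit false

/-! # The uniform Hardy-Littlewood asymptotic: finite sets, and the form of the question for triples -/

open Finset Filter Topology
open Pool.Agent.T2H32.BF (V)
open Pool.Agent.H559.BS (Limit TT log_top)
open Pool.Agent.H559.HY (rts Sg cnt RS Cut)
open Pool.Agent.H559.SI (sh en en_inj en_all rts_card_en Sg_en pS pS_conv cH cH_eq)
open Pool.Agent.H559.PV (OK)

namespace Pool.Agent.H559.UH

/-- admissible sets -/
def Adm (H : Finset ℕ) : Prop := ∀ p : ℕ, p.Prime → (H.image (· % p)).card < p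

theorem prod_en (H : Finset ℕ) (f : ℕ → ℝ) : ∏ i, f (en H i) = ∏ h ∈ H, f h := by
  rw [← Finset.prod_coe_sort H f]
  exact Fintype.prod_equiv H.equivFin.symm _ _ (fun i => rfl)

theorem en_le (H : Finset ℕ) (M : ℕ) (h : ∀ u ∈ H, u ≤ M) (i : Fin H.card) : en H i ≤ M :=
  h _ (H.equivFin.symm i).2

/-- the main theorem for one sample, for finite sets -/
def MF (T : Set ℕ) : Prop := ∀ (k A : ℕ) (ε : ℝ), 0 < ε → ∀ᶠ x : ℕ in atTop,
  ∀ X ≤ x ^ A, ∀ H : Finset ℕ, H.card = k → (∀ h ∈ H, h ≤ x ^ A) → Adm H → ∀ S : ℝ, Tendsto (pS H) atTop (𝓝 S) →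
      |(cH T H X x : ℝ) * (∏ h ∈ H, Real.log ((X + x + h : ℕ) : ℝ)) - S * x| ≤ ε * (S * x)

theorem mf (hm : S_mn) (z W b : ℕ → ℕ) (hz : Limit z) (hW : Cut W) (hOK : OK z W b) : MF (RS z W b) := by
  intro k A ε hε
  filter_upwards [hm z W b hz hW hOK k A ε hε] with x hx X hX H hH hA hadm S hS
  subst hH
  have h1 := hx X hX (en H) (en_inj H) (en_le H _ hA) (fun p hp => by
    rw [rts_card_en H p hp.pos]
    exact hadm p hp) S (hS.congr fun w => (Sg_en H w).symm)
  rw [cH_eq, prod_en H (fun h => Real.log ((X + x + h : ℕ) : ℝ))] at h1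
  exact h1

/-- reflection -/
theorem refl_card (H : Finset ℕ) (d : ℕ) (hd : ∀ h ∈ H, h ≤ d) (p : ℕ) (hp : 0 < p) :
    ((H.image (fun h => d - h)).image (· % p)).card = (H.image (· % p)).card := by
  have e : (H.image (fun h => d - h)).image (· % p) = (H.image (· % p)).image (fun r => (d + (p - r)) % p) := by
    rw [image_image, image_image]
    refine image_congr fun h hh => ?_
    simp only [Function.comp_apply]
    have h1 := hd h hh
    have h2 := Nat.mod_lt h hp
    have h3 := Nat.div_add_mod h p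
    have h4 : d + (p - h % p) = (d - h) + p * (h / p + 1) := by
      rw [Nat.mul_add, mul_one]
      omega
    rw [h4, Nat.add_mul_mod_self_left]
  rw [e]
  refine card_image_of_injOn ?_
  intro r hr r' hr' h1
  simp only [coe_image, Set.mem_image, SetLike.mem_coe] at hr hr'
  obtain ⟨h, _, h2⟩ := hr
  obtain ⟨h', _, h3⟩ := hr'
  have h4 : r < p := by rw [← h2]; exact Nat.mod_lt _ hp
  have h5 : r' < p := by rw [← h3]; exact Nat.mod_lt _ hp
  dsimp only at h1
  have h6 : (d + (p - r)) ≡ (d + (p - r')) [MOD p] := h1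
  have h7 : (p - r) ≡ (p - r') [MOD p] := Nat.ModEq.add_left_cancel' d h6
  have h8 : (p - r) + (r + r') ≡ (p - r') + (r + r') [MOD p] := Nat.ModEq.add_right _ h7
  have e1 : (p - r) + (r + r') = r' + p := by omega
  have e2 : (p - r') + (r + r') = r + p := by omega
  rw [e1, e2] at h8
  have h9 : r' ≡ r [MOD p] := Nat.ModEq.add_right_cancel' p h8
  have h10 : r' % p = r % p := h9
  rw [Nat.mod_eq_of_lt h4, Nat.mod_eq_of_lt h5] at h10
  exact h10.symm

theorem refl_inj (H : Finset ℕ) (d : ℕ) (hd : ∀ h ∈ H, h ≤ d) : (H.image (fun h => d - h)).card = H.card := by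
  refine card_image_of_injOn ?_
  intro a ha b hb h1
  have h2 := hd a ha
  have h3 := hd b hb
  dsimp only at h1
  omega

theorem refl_pS (H : Finset ℕ) (d : ℕ) (hd : ∀ h ∈ H, h ≤ d) : pS (H.image (fun h => d - h)) = pS H := by
  funext x
  unfold pS
  rw [refl_inj H d hd]
  refine prod_congr rfl fun p hp => ?_
  rw [refl_card H d hd p (mem_filter.1 hp).2.pos]

theorem refl_adm (H : Finset ℕ) (d : ℕ) (hd : ∀ h ∈ H, h ≤ d) (h : Adm H) : Adm (H.image (fun h => d - h)) := by
  intro p hp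
  rw [refl_card H d hd p hp.pos]
  exact h p hp

/-- the number of the elements `p ≤ x` with `p - h` in the set for all `h ∈ H` -/
noncomputable def piH (T : Set ℕ) (H : Finset ℕ) (x : ℕ) : ℕ := {p : ℕ | p ≤ x ∧ ∀ h ∈ H, h < p ∧ p - h ∈ T}.ncard

theorem piH_eq (T : Set ℕ) (H : Finset ℕ) (d x : ℕ) (hd : ∀ h ∈ H, h ≤ d) (hdH : d ∈ H) (hdx : d ≤ x) :
    piH T H x = cH T (H.image (fun h => d - h)) 0 (x - d) := by
  unfold piH cH
  refine Set.ncard_congr (fun p _ => p - d) ?_ ?_ ?_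
  · rintro p ⟨h1, h2⟩
    have h3 := (h2 d hdH).1
    refine ⟨by omega, by omega, fun u hu => ?_⟩
    rw [mem_image] at hu
    obtain ⟨h, hh, rfl⟩ := hu
    have h4 := h2 h hh
    have h5 := hd h hh
    have e : p - d + (d - h) = p - h := by omega
    rw [e]
    exact h4.2
  · rintro p q ⟨_, h2⟩ ⟨_, h4⟩ h5
    have h6 := (h2 d hdH).1
    have h7 := (h4 d hdH).1
    omega
  · rintro n ⟨h1, h2, h3⟩
    refine ⟨n + d, ⟨by omega, fun h hh => ?_⟩, by omega⟩
    have h5 := hd h hh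
    have h6 := h3 (d - h) (mem_image.2 ⟨h, hh, rfl⟩)
    have e : n + d - h = n + (d - h) := by omega
    rw [e]
    exact ⟨by omega, h6⟩

theorem num (k : ℕ) (ε : ℝ) (hε : 0 < ε) : ∃ η : ℝ, 0 < η ∧ η ≤ 1 / 2 ∧ 1 - ε ≤ (1 - η) * (1 - η) ∧
    (1 + η) / (1 - η) ^ k ≤ 1 + ε := by
  have f1 : Tendsto (fun e : ℝ => (1 - e) * (1 - e)) (𝓝 0) (𝓝 1) := by
    have : Continuous (fun e : ℝ => (1 - e) * (1 - e)) := by fun_prop
    have h := this.tendsto 0
    simpa using h
  have f2 : Tendsto (fun e : ℝ => (1 + e) / (1 - e) ^ k) (𝓝 0) (𝓝 1) := by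
    have h1 : Tendsto (fun e : ℝ => 1 + e) (𝓝 0) (𝓝 1) := by
      have : Continuous (fun e : ℝ => 1 + e) := by fun_prop
      have h := this.tendsto 0
      simpa using h
    have h2 : Tendsto (fun e : ℝ => (1 - e) ^ k) (𝓝 0) (𝓝 1) := by
      have : Continuous (fun e : ℝ => (1 - e) ^ k) := by fun_prop
      have h := this.tendsto 0
      simpa using h
    have h3 := h1.div h2 one_ne_zero
    rw [div_one] at h3
    exact h3
  have h0 : Tendsto (fun n : ℕ => 1 / ((n : ℝ) + 1)) atTop (𝓝 0) := tendsto_one_div_add_atTop_nhds_zero_nat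
  have g1 := (f1.comp h0).eventually_const_le (show 1 - ε < 1 by linarith)
  have g2 := (f2.comp h0).eventually_le_const (show 1 < 1 + ε by linarith)
  have g3 := h0.eventually_le_const (show (0 : ℝ) < 1 / 2 by norm_num)
  obtain ⟨n, a1, a2, a3⟩ := (g1.and (g2.and g3)).exists
  exact ⟨1 / ((n : ℝ) + 1), by positivity, a3, a1, a2⟩

/-- **The form of the question**, for all the sizes of the tuples and the shifts up to `x ^ (1 - δ)`. -/
theorem form (T : Set ℕ) (hT : MF T) (k : ℕ) (δ ε : ℝ) (hδ : 0 < δ) (hε : 0 < ε) : ∀ᶠ x : ℕ in atTop,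
    ∀ H : Finset ℕ, H.card = k → H.Nonempty → (∀ h ∈ H, (h : ℝ) ≤ (x : ℝ) ^ (1 - δ)) → Adm H → ∀ S : ℝ,
      Tendsto (pS H) atTop (𝓝 S) → 0 < S → |(piH T H x : ℝ) * Real.log x ^ k / (S * x) - 1| ≤ ε := by
  obtain ⟨η, hη, hη2, n1, n2⟩ := num k ε hε
  obtain ⟨N0, hN0⟩ := eventually_atTop.1 (hT k 1 η hη)
  have hp : Tendsto (fun x : ℕ => (x : ℝ) ^ (-δ)) atTop (𝓝 0) :=
    (tendsto_rpow_neg_atTop hδ).comp tendsto_natCast_atTop_atTop
  filter_upwards [hp.eventually_le_const hη, eventually_ge_atTop (2 * N0 + 4), log_top.eventually_ge_atTop (1 / η)]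
    with x a1 a2 a3 H hH hne hhx hadm S hS hS0
  have hx0 : (0 : ℝ) < x := by exact_mod_cast (by omega : 0 < x)
  have hxd : ∀ h ∈ H, (h : ℝ) ≤ η * x := by
    intro h hh
    refine (hhx h hh).trans ?_
    have e : (x : ℝ) ^ (1 - δ) = (x : ℝ) ^ (-δ) * x := by
      rw [sub_eq_neg_add, Real.rpow_add hx0, Real.rpow_one]
    rw [e]
    exact mul_le_mul_of_nonneg_right a1 hx0.le
  set d := H.max' hne with hd
  have hdH : d ∈ H := H.max'_mem hne
  have hdm : ∀ h ∈ H, h ≤ d := fun h hh => H.le_max' h hh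
  have hd1 : (d : ℝ) ≤ η * x := hxd d hdH
  have hd2 : 2 * d ≤ x := by
    have h1 : (2 : ℝ) * d ≤ x := by nlinarith
    exact_mod_cast h1
  set y := x - d with hy
  have hyr : (y : ℝ) = x - d := by
    rw [hy, Nat.cast_sub (by omega)]
  set H' := H.image (fun h => d - h) with hH'
  have hH'm : ∀ u ∈ H', u ≤ d := by
    intro u hu
    rw [hH', mem_image] at hu
    obtain ⟨h, _, rfl⟩ := hu
    omega
  have h1 := hN0 y (by omega) 0 (Nat.zero_le _) H' (by rw [hH', refl_inj H d hdm]; exact hH) (fun u hu => by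
    rw [pow_one]
    have := hH'm u hu
    omega) (refl_adm H d hdm hadm) S (by rw [hH', refl_pS H d hdm]; exact hS)
  rw [← piH_eq T H d x hdm hdH (by omega)] at h1
  set N : ℝ := (piH T H x : ℝ) with hN
  set Λ : ℝ := ∏ h ∈ H', Real.log ((0 + y + h : ℕ) : ℝ) with hΛ
  have hN0' : 0 ≤ N := Nat.cast_nonneg _
  have hy2 : 2 ≤ y := by omega
  have hlog2 : Real.log 2 ≤ 1 := by
    have := Real.log_two_lt_d9
    linarith
  have hη1 : 1 / η * η = 1 := by field_simp
  have hlx : 0 < Real.log x := lt_of_lt_of_le (by positivity) a3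
  have hly : (1 - η) * Real.log x ≤ Real.log y := by
    have h2 : (x : ℝ) / 2 ≤ y := by
      rw [hyr]
      nlinarith
    have h3 : Real.log ((x : ℝ) / 2) ≤ Real.log y := Real.log_le_log (by positivity) h2
    rw [Real.log_div hx0.ne' (by norm_num)] at h3
    have h4 : 1 ≤ η * Real.log x := by
      have := mul_le_mul_of_nonneg_left a3 hη.le
      linarith
    nlinarith
  have hcard : H'.card = k := by rw [hH', refl_inj H d hdm]; exact hH
  have hΛ1 : ((1 - η) * Real.log x) ^ k ≤ Λ := by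
    rw [hΛ, ← hcard, ← prod_const]
    refine prod_le_prod (fun u _ => mul_nonneg (by linarith) hlx.le) (fun u hu => hly.trans ?_)
    refine Real.log_le_log (by exact_mod_cast (by omega : 0 < y)) ?_
    exact_mod_cast (by omega : y ≤ 0 + y + u)
  have hΛ2 : Λ ≤ Real.log x ^ k := by
    rw [hΛ, ← hcard, ← prod_const]
    refine prod_le_prod (fun u _ => Real.log_natCast_nonneg _) (fun u hu => ?_)
    have h5 := hH'm u hu
    refine Real.log_le_log (by exact_mod_cast (by omega : 0 < 0 + y + u)) ?_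
    exact_mod_cast (by omega : 0 + y + u ≤ x)
  have hSx : 0 < S * x := mul_pos hS0 hx0
  have hyx : (y : ℝ) ≤ x := by
    rw [hyr]
    linarith [(Nat.cast_nonneg d : (0 : ℝ) ≤ d)]
  have hyx2 : (1 - η) * x ≤ y := by
    rw [hyr]
    linarith
  obtain ⟨g1, g2⟩ := abs_le.1 h1
  have hlow : (1 - ε) * (S * x) ≤ N * Real.log x ^ k := by
    have g3 : (1 - η) * (S * y) ≤ N * Λ := by linarith
    have g4 : N * Λ ≤ N * Real.log x ^ k := mul_le_mul_of_nonneg_left hΛ2 hN0'
    have g5 : (1 - η) * (S * ((1 - η) * x)) ≤ (1 - η) * (S * y) :=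
      mul_le_mul_of_nonneg_left (mul_le_mul_of_nonneg_left hyx2 hS0.le) (by linarith)
    have g6 : (1 - ε) * (S * x) ≤ ((1 - η) * (1 - η)) * (S * x) := mul_le_mul_of_nonneg_right n1 hSx.le
    calc (1 - ε) * (S * x) ≤ ((1 - η) * (1 - η)) * (S * x) := g6
      _ = (1 - η) * (S * ((1 - η) * x)) := by ring
      _ ≤ _ := g5.trans (g3.trans g4)
  have hup : N * Real.log x ^ k ≤ (1 + ε) * (S * x) := by
    have hη3 : (0 : ℝ) < (1 - η) ^ k := pow_pos (by linarith) k
    have g3 : N * Λ ≤ (1 + η) * (S * x) := by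
      have : (1 + η) * (S * y) ≤ (1 + η) * (S * x) :=
        mul_le_mul_of_nonneg_left (mul_le_mul_of_nonneg_left hyx hS0.le) (by linarith)
      linarith
    have g4 : N * ((1 - η) * Real.log x) ^ k ≤ (1 + η) * (S * x) := (mul_le_mul_of_nonneg_left hΛ1 hN0').trans g3
    have g5 : N * Real.log x ^ k ≤ (1 + η) / (1 - η) ^ k * (S * x) := by
      rw [div_mul_eq_mul_div, le_div_iff₀ hη3]
      calc N * Real.log x ^ k * (1 - η) ^ k = N * ((1 - η) * Real.log x) ^ k := by rw [mul_pow]; ring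
        _ ≤ _ := g4
    exact g5.trans (mul_le_mul_of_nonneg_right n2 hSx.le)
  rw [abs_le]
  constructor
  · have : 1 - ε ≤ N * Real.log x ^ k / (S * x) := by
      rw [le_div_iff₀ hSx]
      exact hlow
    linarith
  · have : N * Real.log x ^ k / (S * x) ≤ 1 + ε := by
      rw [div_le_iff₀ hSx]
      exact hup
    linarith

end Pool.Agent.H559.UH
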