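import Pool.Agent.H559.UH.Stm

set_option autoImplicit false

/-! # The truncated singular series of admissible tuples is bounded below -/

open Finset Filter Topology
open Pool.Agent.T2H32.BF (V)
open Pool.Agent.H559.BS (Limit TT)
open Pool.Agent.H559.HY (rts Sg cnt RS Cut)
open Pool.Agent.H559.SI (sh)
open Pool.Agent.H559.PV (OK)

namespace Pool.Agent.H559.UH

namespace Lb

theorem card_le {k : ℕ} (h : Fin k → ℕ) (p : ℕ) (hp : 0 < p) : (rts (sh 0 h) p 0).card ≤ k := by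
  classical
  have h1 : rts (sh 0 h) p 0 ⊆ (univ : Finset (Fin k)).image (fun i => (p - h i % p) % p) := by
    intro s hs
    unfold rts at hs
    rw [mem_filter, mem_range] at hs
    obtain ⟨hsp, i, hi⟩ := hs
    rw [Pool.Agent.H559.SI.cls_sh _ _ _ _ _ hp, zero_add] at hi
    rw [mem_image]
    refine ⟨i, mem_univ _, ?_⟩
    have hr : h i % p < p := Nat.mod_lt _ hp
    have hd : p ∣ s + h i % p := by
      rw [Nat.dvd_iff_mod_eq_zero, Nat.add_mod_mod, ← Nat.dvd_iff_mod_eq_zero]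
      exact hi
    obtain ⟨q, hq⟩ := hd
    have hq2 : q < 2 := by
      by_contra hge
      push Not at hge
      have : p * 2 ≤ p * q := Nat.mul_le_mul_left _ hge
      omega
    interval_cases q
    · have h0 : h i % p = 0 := by omega
      have h00 : s = 0 := by omega
      rw [h0, h00, Nat.sub_zero, Nat.mod_self]
    · have h0 : p - h i % p = s := by omega
      rw [h0, Nat.mod_eq_of_lt hsp]
  calc _ ≤ _ := card_le_card h1
    _ ≤ (univ : Finset (Fin k)).card := card_image_le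
    _ = k := by rw [card_univ, Fintype.card_fin]

theorem exp_le {t : ℝ} (h0 : 0 ≤ t) (h1 : t ≤ 1 / 2) : Real.exp (-t ^ 2) * Real.exp (-t) ≤ 1 - t := by
  rw [← Real.exp_add, show -t ^ 2 + -t = -(t + t ^ 2) by ring, Real.exp_neg]
  have h2 := Real.quadratic_le_exp_of_nonneg (show 0 ≤ t + t ^ 2 by positivity)
  rw [inv_le_comm₀ (Real.exp_pos _) (by linarith)]
  refine le_trans ?_ h2
  rw [inv_le_iff_one_le_mul₀ (by linarith)]
  have h3 : 0 ≤ 1 - t - t ^ 2 - t ^ 3 := by nlinarith [sq_nonneg t, mul_nonneg h0 h0]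
  nlinarith [mul_nonneg (sq_nonneg t) h3]

theorem factor {k : ℕ} (h : Fin k → ℕ) {p : ℕ} (hp : p.Prime) (hlt : (rts (sh 0 h) p 0).card < p) :
    Real.exp (-((8 * (k : ℝ) ^ 3 + k ^ 2) * (1 / (p : ℝ) ^ 2))) ≤
      (1 - ((rts (sh 0 h) p 0).card : ℝ) / p) / (1 - 1 / (p : ℝ)) ^ k := by
  set nu := (rts (sh 0 h) p 0).card with hnu
  have hk : nu ≤ k := card_le h p hp.pos
  have hp2 : (2 : ℝ) ≤ p := by exact_mod_cast hp.two_le
  have hp0 : (0 : ℝ) < p := by linarith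
  have hk0 : (0 : ℝ) ≤ k := Nat.cast_nonneg k
  have hkR : (nu : ℝ) ≤ k := by exact_mod_cast hk
  have hltR : (nu : ℝ) + 1 ≤ p := by exact_mod_cast hlt
  have hb0 : (0 : ℝ) < 1 - 1 / (p : ℝ) := by
    have : 1 / (p : ℝ) ≤ 1 / 2 := one_div_le_one_div_of_le (by norm_num) hp2
    linarith
  have hb1 : 1 - 1 / (p : ℝ) ≤ 1 := by
    have : 0 < 1 / (p : ℝ) := by positivity
    linarith
  have hD0 : 0 < (1 - 1 / (p : ℝ)) ^ k := pow_pos hb0 k
  have hD1 : (1 - 1 / (p : ℝ)) ^ k ≤ 1 := pow_le_one₀ hb0.le hb1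
  rw [le_div_iff₀ hD0]
  rcases le_or_gt p (2 * k) with hc | hc
  · have hcR : (p : ℝ) ≤ 2 * k := by exact_mod_cast hc
    have h1 : (p : ℝ) ≤ (8 * (k : ℝ) ^ 3 + k ^ 2) * (1 / (p : ℝ) ^ 2) := by
      rw [mul_one_div, le_div_iff₀ (by positivity)]
      have h2 : (p : ℝ) ^ 3 ≤ (2 * k) ^ 3 := pow_le_pow_left₀ hp0.le hcR 3
      have h3 : (p : ℝ) * p ^ 2 = p ^ 3 := by ring
      have h4 : (2 * (k : ℝ)) ^ 3 = 8 * k ^ 3 := by ring
      have h5 : 0 ≤ (k : ℝ) ^ 2 := by positivity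
      rw [h3]
      linarith
    have h2 : Real.exp (-((8 * (k : ℝ) ^ 3 + k ^ 2) * (1 / (p : ℝ) ^ 2))) ≤ 1 / p := by
      calc _ ≤ Real.exp (-(p : ℝ)) := Real.exp_le_exp.mpr (by linarith)
        _ = 1 / Real.exp p := by rw [Real.exp_neg, one_div]
        _ ≤ 1 / p := by
          apply one_div_le_one_div_of_le hp0
          have := Real.add_one_le_exp (p : ℝ)
          linarith
    have h3 : 1 / (p : ℝ) ≤ 1 - (nu : ℝ) / p := by
      rw [le_sub_iff_add_le, ← add_div, div_le_one hp0]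
      linarith
    calc _ ≤ 1 / (p : ℝ) * 1 := mul_le_mul h2 hD1 hD0.le (by positivity)
      _ ≤ _ := by rw [mul_one]; exact h3
  · have hcR : (2 : ℝ) * k < p := by exact_mod_cast hc
    set t : ℝ := (k : ℝ) / p with ht
    have ht0 : 0 ≤ t := by positivity
    have ht1 : t ≤ 1 / 2 := by
      rw [ht, div_le_iff₀ hp0]
      linarith
    have h1 := exp_le ht0 ht1
    have h2 : (1 - 1 / (p : ℝ)) ^ k ≤ Real.exp (-t) := by
      have h3 : 1 - 1 / (p : ℝ) ≤ Real.exp (-(1 / (p : ℝ))) := by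
        have := Real.add_one_le_exp (-(1 / (p : ℝ)))
        linarith
      calc _ ≤ (Real.exp (-(1 / (p : ℝ)))) ^ k := pow_le_pow_left₀ hb0.le h3 k
        _ = Real.exp (-t) := by
          rw [← Real.exp_nat_mul, ht]
          congr 1
          ring
    have h3 : Real.exp (-((8 * (k : ℝ) ^ 3 + k ^ 2) * (1 / (p : ℝ) ^ 2))) ≤ Real.exp (-t ^ 2) := by
      apply Real.exp_le_exp.mpr
      have e : t ^ 2 = (k : ℝ) ^ 2 * (1 / (p : ℝ) ^ 2) := by
        rw [ht, div_pow]; ring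
      rw [e, neg_le_neg_iff]
      apply mul_le_mul_of_nonneg_right _ (by positivity)
      have : 0 ≤ 8 * (k : ℝ) ^ 3 := by positivity
      linarith
    calc _ ≤ Real.exp (-t ^ 2) * Real.exp (-t) :=
          mul_le_mul h3 h2 hD0.le (Real.exp_pos _).le
      _ ≤ 1 - t := h1
      _ ≤ 1 - (nu : ℝ) / p := by
          have : (nu : ℝ) / p ≤ t := div_le_div_of_nonneg_right hkR hp0.le
          linarith

end Lb

theorem t_lb : S_lb := by
  intro k
  have hs : Summable (fun n : ℕ => 1 / (n : ℝ) ^ 2) := Real.summable_one_div_nat_pow.mpr one_lt_two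
  set T : ℝ := ∑' n : ℕ, 1 / (n : ℝ) ^ 2 with hT
  refine ⟨Real.exp (-((8 * (k : ℝ) ^ 3 + k ^ 2) * T)), Real.exp_pos _, fun h hh w => ?_⟩
  unfold Sg
  have h1 : ∏ p ∈ (range (w + 1)).filter Nat.Prime,
      Real.exp (-((8 * (k : ℝ) ^ 3 + k ^ 2) * (1 / (p : ℝ) ^ 2))) ≤
      ∏ p ∈ (range (w + 1)).filter Nat.Prime,
        (1 - ((rts (sh 0 h) p 0).card : ℝ) / p) / (1 - 1 / (p : ℝ)) ^ k := by
    apply prod_le_prod (fun p _ => (Real.exp_pos _).le)
    intro p hp
    have hpp := (mem_filter.1 hp).2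
    exact Lb.factor h hpp (hh p hpp)
  refine le_trans ?_ h1
  rw [← Real.exp_sum]
  apply Real.exp_le_exp.mpr
  rw [sum_neg_distrib, neg_le_neg_iff, ← mul_sum]
  apply mul_le_mul_of_nonneg_left _ (by positivity)
  exact hs.sum_le_tsum _ (fun n _ => by positivity)

end Pool.Agent.H559.UH
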