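import Pool.Agent.H559.UH.Stm

set_option autoImplicit false

/-! # The main theorem for one sample, from the parts -/

open Finset Filter Topology
open Pool.Agent.T2H32.BF (V V_pos V_anti)
open Pool.Agent.H559.BS (Limit TT TT_le TT_ge TT_top log_TT log_top)
open Pool.Agent.H559.HY (rts Sg cnt RS Cut Sg_nonneg cnt_add cnt_le sqrt_lim)
open Pool.Agent.H559.SI (sh)
open Pool.Agent.H559.PV (OK)

namespace Pool.Agent.H559.UH.Mn

/-- the choice of the small number -/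
theorem pick (k : ℕ) (c ε : ℝ) (hε : 0 < ε) : ∃ n : ℕ,
    1 - ε ≤ Real.exp (-(1 / ((n : ℝ) + 1))) * ((1 - 1 / ((n : ℝ) + 1)) ^ (k + 2) - (1 / ((n : ℝ) + 1)) / c) ∧
    0 ≤ (1 - 1 / ((n : ℝ) + 1)) ^ (k + 2) - (1 / ((n : ℝ) + 1)) / c ∧
    Real.exp (1 / ((n : ℝ) + 1)) * (3 * (1 / ((n : ℝ) + 1)) / c + (1 + 1 / ((n : ℝ) + 1)) * (1 / ((n : ℝ) + 1)) * 3 ^ k +
      (1 + 1 / ((n : ℝ) + 1)) ^ (k + 1)) ≤ 1 + ε := by
  have h0 : Tendsto (fun n : ℕ => 1 / ((n : ℝ) + 1)) atTop (𝓝 0) := tendsto_one_div_add_atTop_nhds_zero_nat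
  have f1 : Tendsto (fun e : ℝ => Real.exp (-e) * ((1 - e) ^ (k + 2) - e / c)) (𝓝 0) (𝓝 1) := by
    have : Continuous (fun e : ℝ => Real.exp (-e) * ((1 - e) ^ (k + 2) - e / c)) := by fun_prop
    have h := this.tendsto 0
    simpa using h
  have f2 : Tendsto (fun e : ℝ => (1 - e) ^ (k + 2) - e / c) (𝓝 0) (𝓝 1) := by
    have : Continuous (fun e : ℝ => (1 - e) ^ (k + 2) - e / c) := by fun_prop
    have h := this.tendsto 0
    simpa using h
  have f3 : Tendsto (fun e : ℝ => Real.exp e * (3 * e / c + (1 + e) * e * 3 ^ k + (1 + e) ^ (k + 1))) (𝓝 0) (𝓝 1) := by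
    have : Continuous (fun e : ℝ => Real.exp e * (3 * e / c + (1 + e) * e * 3 ^ k + (1 + e) ^ (k + 1))) := by fun_prop
    have h := this.tendsto 0
    simpa using h
  have g1 := (f1.comp h0).eventually_const_le (show 1 - ε < 1 by linarith)
  have g2 := (f2.comp h0).eventually_const_le (show (0 : ℝ) < 1 by norm_num)
  have g3 := (f3.comp h0).eventually_le_const (show 1 < 1 + ε by linarith)
  obtain ⟨n, a1, a2, a3⟩ := (g1.and (g2.and g3)).exists
  exact ⟨n, a1, a2, a3⟩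

/-- the conclusion from the two bounds -/
theorem close (k : ℕ) (c e ε Sg S x N : ℝ) (hc : 0 < c) (he : 0 < e) (hx : 0 < x) (hS : c ≤ Sg)
    (h1 : Real.exp (-e) * Sg ≤ S) (h2 : S ≤ Real.exp e * Sg)
    (p1 : 1 - ε ≤ Real.exp (-e) * ((1 - e) ^ (k + 2) - e / c)) (p2 : 0 ≤ (1 - e) ^ (k + 2) - e / c)
    (p3 : Real.exp e * (3 * e / c + (1 + e) * e * 3 ^ k + (1 + e) ^ (k + 1)) ≤ 1 + ε)
    (hlow : (1 - e) * ((1 - e) * x * (Sg * (1 - e) ^ k)) - e * x ≤ N)
    (hup : N ≤ e * x + ((1 + e) * (e * x * (Sg * 3 ^ k)) + e * x) + ((1 + e) * (x * (Sg * (1 + e) ^ k)) + e * x)) :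
    |N - S * x| ≤ ε * (S * x) := by
  have hSg : 0 < Sg := lt_of_lt_of_le hc hS
  have hS0 : 0 < S := lt_of_lt_of_le (mul_pos (Real.exp_pos _) hSg) h1
  have hx1 : e * x ≤ e / c * (Sg * x) := by
    have h3 : x * 1 ≤ x * (Sg / c) := mul_le_mul_of_nonneg_left (by rw [le_div_iff₀ hc]; linarith) hx.le
    calc e * x = e * (x * 1) := by ring
      _ ≤ e * (x * (Sg / c)) := mul_le_mul_of_nonneg_left h3 he.le
      _ = e / c * (Sg * x) := by ring
  have hSx : 0 < S * x := mul_pos hS0 hx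
  -- S in terms of Sg
  have h4 : Real.exp (-e) * (S * x) ≤ Sg * x := by
    have h5 : Real.exp (-e) * S ≤ Sg := by
      calc Real.exp (-e) * S ≤ Real.exp (-e) * (Real.exp e * Sg) := mul_le_mul_of_nonneg_left h2 (Real.exp_pos _).le
        _ = Sg := by
          rw [← mul_assoc, ← Real.exp_add]
          simp
    calc Real.exp (-e) * (S * x) = (Real.exp (-e) * S) * x := by ring
      _ ≤ Sg * x := mul_le_mul_of_nonneg_right h5 hx.le
  have h6 : Sg * x ≤ Real.exp e * (S * x) := by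
    have h5 : Sg ≤ Real.exp e * S := by
      calc Sg = Real.exp e * (Real.exp (-e) * Sg) := by
            rw [← mul_assoc, ← Real.exp_add]
            simp
        _ ≤ Real.exp e * S := mul_le_mul_of_nonneg_left h1 (Real.exp_pos _).le
    calc Sg * x ≤ (Real.exp e * S) * x := mul_le_mul_of_nonneg_right h5 hx.le
      _ = _ := by ring
  rw [abs_le]
  constructor
  · have h7 : ((1 - e) ^ (k + 2) - e / c) * (Sg * x) ≤ N := by
      refine le_trans ?_ hlow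
      have : (1 - e) * ((1 - e) * x * (Sg * (1 - e) ^ k)) = (1 - e) ^ (k + 2) * (Sg * x) := by ring
      rw [this, sub_mul]
      linarith
    have h8 : (1 - ε) * (S * x) ≤ N := by
      calc (1 - ε) * (S * x) ≤ (Real.exp (-e) * ((1 - e) ^ (k + 2) - e / c)) * (S * x) :=
            mul_le_mul_of_nonneg_right p1 hSx.le
        _ = ((1 - e) ^ (k + 2) - e / c) * (Real.exp (-e) * (S * x)) := by ring
        _ ≤ ((1 - e) ^ (k + 2) - e / c) * (Sg * x) := mul_le_mul_of_nonneg_left h4 p2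
        _ ≤ N := h7
    linarith
  · set Q := 3 * e / c + (1 + e) * e * 3 ^ k + (1 + e) ^ (k + 1) with hQ
    have hQ0 : 0 ≤ Q := by
      rw [hQ]
      positivity
    have h7 : N ≤ Q * (Sg * x) := by
      refine hup.trans ?_
      have h9 : Q * (Sg * x) = 3 * (e / c * (Sg * x)) + ((1 + e) * (e * x * (Sg * 3 ^ k))) + (1 + e) * (x * (Sg * (1 + e) ^ k)) := by
        rw [hQ]
        ring
      rw [h9]
      linarith
    have h8 : N ≤ (1 + ε) * (S * x) := by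
      calc N ≤ Q * (Sg * x) := h7
        _ ≤ Q * (Real.exp e * (S * x)) := mul_le_mul_of_nonneg_left h6 hQ0
        _ = (Real.exp e * Q) * (S * x) := by ring
        _ ≤ (1 + ε) * (S * x) := mul_le_mul_of_nonneg_right p3 hSx.le
    linarith

theorem evW (W : ℕ → ℕ) (hW : Cut W) : ∀ᶠ x : ℕ in atTop, Real.log x ≤ W (TT (1 / 4) x) := by
  have h1 := (hW.top.comp (TT_top (1 / 4) (by norm_num))).eventually_ge_atTop 8
  filter_upwards [h1, log_TT (1 / 4) (by norm_num), log_top.eventually_ge_atTop 8] with x h2 h3 h4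
  simp only [Function.comp_apply] at h2
  have h5 : Real.log 2 ≤ 1 := by
    have := Real.log_two_lt_d9
    linarith
  have h6 : 1 ≤ Real.log (TT (1 / 4) x) := by linarith [h3.1]
  rw [le_div_iff₀ (by linarith)] at h2
  linarith [h3.1]

theorem evs (k A n n0 : ℕ) (e : ℝ) (he : 0 < e) : ∀ᶠ x : ℕ in atTop,
    2 ≤ x ∧ n0 ≤ x / (n + 1) ∧ n0 ≤ Nat.sqrt x + 1 ∧ TT (1 / 4) x ≤ Nat.sqrt x + 1 ∧ Nat.sqrt x + 1 ≤ x / (n + 1) ∧
      ((Nat.sqrt x + 1 : ℕ) : ℝ) * (((A : ℝ) + 3) * Real.log x) ^ k ≤ e * x ∧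
      x / Real.log x ^ (k + 1) * (((A : ℝ) + 3) * Real.log x) ^ k ≤ e * x ∧ 1 ≤ Real.log x := by
  have h1 := (sqrt_lim k).const_mul (2 * ((A : ℝ) + 3) ^ k)
  rw [mul_zero] at h1
  filter_upwards [h1.eventually_le_const he, eventually_ge_atTop 2, eventually_ge_atTop ((n + 1) * (n0 + 1)),
    eventually_ge_atTop ((n0 + 2 * (n + 1)) * (n0 + 2 * (n + 1))), log_top.eventually_ge_atTop (max 1 (((A : ℝ) + 3) ^ k / e))]
    with x a1 a2 a3 a4 a5
  have hx0 : (0 : ℝ) < x := by exact_mod_cast (by omega : 0 < x)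
  have hx1 : (1 : ℝ) ≤ x := by exact_mod_cast (by omega : 1 ≤ x)
  have hL : 1 ≤ Real.log x := (le_max_left _ _).trans a5
  have hs : n0 + 2 * (n + 1) ≤ Nat.sqrt x := Nat.le_sqrt.2 a4
  have hs2 : Nat.sqrt x * Nat.sqrt x ≤ x := Nat.sqrt_le x
  have hs3 : x < (Nat.sqrt x + 1) * (Nat.sqrt x + 1) := Nat.lt_succ_sqrt x
  have hsr : (Nat.sqrt x : ℝ) ≤ √(x : ℝ) := Real.nat_sqrt_le_real_sqrt
  have hsr1 : 1 ≤ √(x : ℝ) := by
    rw [Real.one_le_sqrt]
    exact hx1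
  refine ⟨a2, ?_, by omega, ?_, ?_, ?_, ?_, hL⟩
  · rw [Nat.le_div_iff_mul_le (by omega)]
    calc n0 * (n + 1) ≤ (n + 1) * (n0 + 1) := by ring_nf; omega
      _ ≤ x := a3
  · have h2 : (TT (1 / 4) x : ℝ) ≤ √(x : ℝ) := by
      refine (TT_le (1 / 4) x).trans ?_
      rw [Real.sqrt_eq_rpow]
      exact Real.rpow_le_rpow_of_exponent_le hx1 (by norm_num)
    have h3 : √(x : ℝ) < ((Nat.sqrt x + 1 : ℕ) : ℝ) := by
      rw [Real.sqrt_lt' (by positivity)]
      have : (x : ℝ) < (((Nat.sqrt x + 1) * (Nat.sqrt x + 1) : ℕ) : ℝ) := by exact_mod_cast hs3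
      rw [sq]
      push_cast at this ⊢
      exact this
    have h4 : (TT (1 / 4) x : ℝ) ≤ ((Nat.sqrt x + 1 : ℕ) : ℝ) := h2.trans h3.le
    exact_mod_cast h4
  · rw [Nat.le_div_iff_mul_le (by omega)]
    have h2 : (Nat.sqrt x + 1) * (n + 1) ≤ Nat.sqrt x * (2 * (n + 1)) := by nlinarith
    have h3 : Nat.sqrt x * (2 * (n + 1)) ≤ Nat.sqrt x * Nat.sqrt x := Nat.mul_le_mul_left _ (by omega)
    omega
  · have h2 : ((Nat.sqrt x + 1 : ℕ) : ℝ) ≤ 2 * √(x : ℝ) := by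
      push_cast
      linarith
    have h3 : 2 * ((A : ℝ) + 3) ^ k * (√(x : ℝ) * Real.log x ^ k / x) ≤ e := a1
    have h4 : 0 ≤ (((A : ℝ) + 3) * Real.log x) ^ k := by positivity
    calc ((Nat.sqrt x + 1 : ℕ) : ℝ) * (((A : ℝ) + 3) * Real.log x) ^ k ≤ 2 * √(x : ℝ) * (((A : ℝ) + 3) * Real.log x) ^ k :=
          mul_le_mul_of_nonneg_right h2 h4
      _ = (2 * ((A : ℝ) + 3) ^ k * (√(x : ℝ) * Real.log x ^ k / x)) * x := by
          rw [mul_pow]
          field_simp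
      _ ≤ e * x := mul_le_mul_of_nonneg_right h3 hx0.le
  · have h2 := (le_max_right _ _).trans a5
    rw [div_le_iff₀ he] at h2
    have h3 : x / Real.log x ^ (k + 1) * (((A : ℝ) + 3) * Real.log x) ^ k = x * (((A : ℝ) + 3) ^ k / Real.log x) := by
      rw [mul_pow, pow_succ]
      field_simp
    rw [h3, mul_comm e]
    refine mul_le_mul_of_nonneg_left ?_ hx0.le
    rw [div_le_iff₀ (by linarith)]
    linarith


theorem lim_bounds {k : ℕ} (h : Fin k → ℕ) (w : ℕ) (e S : ℝ) (hS : Tendsto (fun w : ℕ => Sg (sh 0 h) w) atTop (𝓝 S))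
    (hb : ∀ w' : ℕ, w ≤ w' → Real.exp (-e) * Sg (sh 0 h) w ≤ Sg (sh 0 h) w' ∧ Sg (sh 0 h) w' ≤ Real.exp e * Sg (sh 0 h) w) :
    Real.exp (-e) * Sg (sh 0 h) w ≤ S ∧ S ≤ Real.exp e * Sg (sh 0 h) w := by
  constructor
  · refine ge_of_tendsto hS ?_
    filter_upwards [eventually_ge_atTop w] with w' hw
    exact (hb w' hw).1
  · refine le_of_tendsto hS ?_
    filter_upwards [eventually_ge_atTop w] with w' hw
    exact (hb w' hw).2

end Pool.Agent.H559.UH.Mn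

namespace Pool.Agent.H559.UH

open Mn

theorem t_mn (h1 : S_lb) (h2 : S_tl) (h3 : S_dn) (h4 : S_en) : S_mn := by
  classical
  intro z W b hz hW hOK k A ε hε
  obtain ⟨c, hc, hcl⟩ := h1 k
  obtain ⟨n, hn1, hn2, hn3⟩ := pick k c ε hε
  have hn0 : (0 : ℝ) < (n : ℝ) + 1 := by positivity
  set e : ℝ := 1 / ((n : ℝ) + 1) with he
  have he0 : 0 < e := by positivity
  have he1 : e ≤ 1 := by
    rw [he, div_le_one hn0]
    linarith [(Nat.cast_nonneg n : (0 : ℝ) ≤ n)]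
  obtain ⟨n0, hn0'⟩ := h3 z hz (2 * (n + 1)) e (by omega) he0
  filter_upwards [h4 z W b hOK k A (k + 1) n, h2 k A e he0, evW W hW, evs k A n n0 e he0] with
    x a1 a2 a3 a4 X hX h hinj hhA hadm S hS
  obtain ⟨b1, b2, b3, b4, b5, b6, b7, b8⟩ := a4
  have hx0 : (0 : ℝ) < x := by exact_mod_cast (by omega : 0 < x)
  set w := W (TT (1 / 4) x) with hw
  set Sx := Sg (sh 0 h) w with hSx
  have hSc : c ≤ Sx := hcl h hadm w
  have hSx0 : 0 < Sx := lt_of_lt_of_le hc hSc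
  obtain ⟨hS1, hS2⟩ := lim_bounds h w e S hS (fun w' hw' => a2 h hinj hhA w w' a3 hw')
  set y0 := Nat.sqrt x + 1 with hy0
  set y1 := x / (n + 1) with hy1
  have hy1x : y1 ≤ x := Nat.div_le_self _ _
  set T := RS z W b with hT
  set L : ℝ := ∏ i, Real.log ((X + x + h i : ℕ) : ℝ) with hL
  have hlogpos : ∀ i, 0 < Real.log ((X + x + h i : ℕ) : ℝ) := fun i =>
    Real.log_pos (by exact_mod_cast (by omega : 1 < X + x + h i))
  have hlogle : ∀ i, Real.log ((X + x + h i : ℕ) : ℝ) ≤ ((A : ℝ) + 3) * Real.log x := by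
    intro i
    have h5 : X + x + h i ≤ x ^ (A + 3) := by
      have h6 := hhA i
      have h7 : x ≤ x ^ (A + 1) := Nat.le_self_pow (by omega) x
      have h8 : x ^ A ≤ x ^ (A + 1) := Nat.pow_le_pow_right (by omega) (by omega)
      calc X + x + h i ≤ x ^ (A + 1) + x ^ (A + 1) + x ^ (A + 1) := by omega
        _ = 3 * x ^ (A + 1) := by ring
        _ ≤ x ^ 2 * x ^ (A + 1) := Nat.mul_le_mul_right _ (by nlinarith)
        _ = x ^ (A + 3) := by ring
    have h6 : ((X + x + h i : ℕ) : ℝ) ≤ (x : ℝ) ^ (A + 3) := by exact_mod_cast h5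
    have h7 : (0 : ℝ) < ((X + x + h i : ℕ) : ℝ) := by exact_mod_cast (by omega : 0 < X + x + h i)
    calc Real.log ((X + x + h i : ℕ) : ℝ) ≤ Real.log ((x : ℝ) ^ (A + 3)) := Real.log_le_log h7 h6
      _ = ((A : ℝ) + 3) * Real.log x := by
        rw [Real.log_pow]
        push_cast
        ring
  have hL0 : 0 < L := prod_pos fun i _ => hlogpos i
  have hLle : L ≤ (((A : ℝ) + 3) * Real.log x) ^ k := by
    calc L ≤ ∏ _i : Fin k, (((A : ℝ) + 3) * Real.log x) := prod_le_prod (fun i _ => (hlogpos i).le) (fun i _ => hlogle i)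
      _ = _ := by rw [prod_const, card_univ, Fintype.card_fin]
  -- the errors
  have hE1 : (y0 : ℝ) * L ≤ e * x := (mul_le_mul_of_nonneg_left hLle (Nat.cast_nonneg _)).trans b6
  have hE2 : x / Real.log x ^ (k + 1) * L ≤ e * x := by
    refine (mul_le_mul_of_nonneg_left hLle ?_).trans b7
    positivity
  -- the counts
  have hc1 : cnt (sh X h) T 0 x = cnt (sh X h) T 0 y0 + (cnt (sh X h) T y0 (y1 - y0) + cnt (sh X h) T y1 (x - y1)) := by
    have e1 : y0 + ((y1 - y0) + (x - y1)) = x := by omega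
    have e2 : y0 + (y1 - y0) = y1 := by omega
    have e3 := cnt_add (sh X h) T 0 y0 ((y1 - y0) + (x - y1))
    rw [e1, zero_add, cnt_add (sh X h) T y0 (y1 - y0) (x - y1), e2] at e3
    exact e3
  have hc2 := cnt_le (sh X h) T 0 y0
  -- the densities
  have hVV : ∀ u : ℕ, (∏ i, V (z (X + u + h i))) * L = ∏ i, (V (z (X + u + h i)) * Real.log ((X + x + h i : ℕ) : ℝ)) := by
    intro u
    rw [hL, ← prod_mul_distrib]
  have hV0 : ∀ i, (1 - e) ≤ V (z (X + x + h i)) * Real.log ((X + x + h i : ℕ) : ℝ) := by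
    intro i
    have h5 := (hn0' (X + x + h i) (by omega) (X + x + h i) le_rfl).1 (by nlinarith)
    linarith [(abs_le.1 h5).1]
  have hV1 : ∀ i, V (z (X + y1 + h i)) * Real.log ((X + x + h i : ℕ) : ℝ) ≤ 1 + e := by
    intro i
    have h6 : x ≤ 2 * (n + 1) * y1 := by
      have h7 : x < (n + 1) * (y1 + 1) := Nat.lt_mul_div_succ x (by omega)
      have h8 : 1 ≤ y1 := by omega
      nlinarith
    have h5 := (hn0' (X + y1 + h i) (by omega) (X + x + h i) (by omega)).1 (by nlinarith)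
    linarith [(abs_le.1 h5).2]
  have hV2 : ∀ i, V (z (X + y0 + h i)) * Real.log ((X + x + h i : ℕ) : ℝ) ≤ 3 := by
    intro i
    have h6 : x < y0 * y0 := Nat.lt_succ_sqrt x
    refine (hn0' (X + y0 + h i) (by omega) (X + x + h i) (by omega)).2 ?_
    have h7 : 1 ≤ y0 := by omega
    nlinarith [Nat.zero_le (X + h i)]
  have hP0 : (1 - e) ^ k ≤ (∏ i, V (z (X + x + h i))) * L := by
    rw [hVV]
    calc (1 - e) ^ k = ∏ _i : Fin k, (1 - e) := by rw [prod_const, card_univ, Fintype.card_fin]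
      _ ≤ _ := prod_le_prod (fun i _ => by linarith) (fun i _ => hV0 i)
  have hP1 : (∏ i, V (z (X + y1 + h i))) * L ≤ (1 + e) ^ k := by
    rw [hVV]
    calc _ ≤ ∏ _i : Fin k, (1 + e) := prod_le_prod (fun i _ => mul_nonneg (V_pos _).le (hlogpos i).le) (fun i _ => hV1 i)
      _ = (1 + e) ^ k := by rw [prod_const, card_univ, Fintype.card_fin]
  have hP2 : (∏ i, V (z (X + y0 + h i))) * L ≤ 3 ^ k := by
    rw [hVV]
    calc _ ≤ ∏ _i : Fin k, (3 : ℝ) := prod_le_prod (fun i _ => mul_nonneg (V_pos _).le (hlogpos i).le) (fun i _ => hV2 i)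
      _ = 3 ^ k := by rw [prod_const, card_univ, Fintype.card_fin]
  -- the pieces
  obtain ⟨d1, d2⟩ := a1 X hX h hinj hhA y1 x (b4.trans b5) hy1x le_rfl
  obtain ⟨_, d4⟩ := a1 X hX h hinj hhA y0 y1 b4 b5 hy1x
  rw [← hSx, ← he] at d1 d2 d4
  have hy1r : (y1 : ℝ) ≤ e * x := by
    have : (y1 : ℝ) ≤ (x : ℝ) / ((n + 1 : ℕ) : ℝ) := Nat.cast_div_le
    refine this.trans (le_of_eq ?_)
    rw [he]
    push_cast
    ring
  have hy1x' : (y1 : ℝ) ≤ x := by exact_mod_cast hy1x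
  have hy01 : (y0 : ℝ) ≤ y1 := by exact_mod_cast b5
  have hy0p : (0 : ℝ) ≤ y0 := Nat.cast_nonneg _
  have hlow : (1 - e) * ((1 - e) * x * (Sx * (1 - e) ^ k)) - e * x ≤ (cnt (sh X h) T 0 x : ℝ) * L := by
    have g1 : (cnt (sh X h) T y1 (x - y1) : ℝ) ≤ cnt (sh X h) T 0 x := by
      rw [hc1]
      push_cast
      have : (0 : ℝ) ≤ cnt (sh X h) T 0 y0 := Nat.cast_nonneg _
      have : (0 : ℝ) ≤ cnt (sh X h) T y0 (y1 - y0) := Nat.cast_nonneg _
      linarith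
    have g2 := mul_le_mul_of_nonneg_right (d1.trans g1) hL0.le
    refine le_trans ?_ g2
    have g3 : ((1 - e) * (((x : ℝ) - y1) * (Sx * ∏ i, V (z (X + x + h i)))) - x / Real.log x ^ (k + 1)) * L =
        (1 - e) * (((x : ℝ) - y1) * (Sx * ((∏ i, V (z (X + x + h i))) * L))) - x / Real.log x ^ (k + 1) * L := by ring
    rw [g3]
    have g4 : (1 - e) * x * (Sx * (1 - e) ^ k) ≤ ((x : ℝ) - y1) * (Sx * ((∏ i, V (z (X + x + h i))) * L)) := by
      have g5 : (1 - e) * x ≤ (x : ℝ) - y1 := by linarith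
      have g6 : Sx * (1 - e) ^ k ≤ Sx * ((∏ i, V (z (X + x + h i))) * L) := mul_le_mul_of_nonneg_left hP0 hSx0.le
      have g7 : 0 ≤ Sx * (1 - e) ^ k := mul_nonneg hSx0.le (pow_nonneg (by linarith) _)
      exact mul_le_mul g5 g6 g7 (by linarith)
    have g5 := mul_le_mul_of_nonneg_left g4 (show 0 ≤ 1 - e by linarith)
    linarith
  have hup : (cnt (sh X h) T 0 x : ℝ) * L ≤ e * x + ((1 + e) * (e * x * (Sx * 3 ^ k)) + e * x) +
      ((1 + e) * (x * (Sx * (1 + e) ^ k)) + e * x) := by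
    rw [hc1]
    push_cast
    rw [add_mul, add_mul, ← add_assoc]
    have g0 : (cnt (sh X h) T 0 y0 : ℝ) * L ≤ e * x :=
      (mul_le_mul_of_nonneg_right (by exact_mod_cast hc2) hL0.le).trans hE1
    have g1 : (cnt (sh X h) T y0 (y1 - y0) : ℝ) * L ≤ (1 + e) * (e * x * (Sx * 3 ^ k)) + e * x := by
      refine (mul_le_mul_of_nonneg_right d4 hL0.le).trans ?_
      have g3 : ((1 + e) * (((y1 : ℝ) - y0) * (Sx * ∏ i, V (z (X + y0 + h i)))) + x / Real.log x ^ (k + 1)) * L =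
          (1 + e) * (((y1 : ℝ) - y0) * (Sx * ((∏ i, V (z (X + y0 + h i))) * L))) + x / Real.log x ^ (k + 1) * L := by ring
      rw [g3]
      have g6 : Sx * ((∏ i, V (z (X + y0 + h i))) * L) ≤ Sx * 3 ^ k := mul_le_mul_of_nonneg_left hP2 hSx0.le
      have g7 : 0 ≤ Sx * ((∏ i, V (z (X + y0 + h i))) * L) :=
        mul_nonneg hSx0.le (mul_nonneg (prod_nonneg fun i _ => (V_pos _).le) hL0.le)
      have g8 : ((y1 : ℝ) - y0) * (Sx * ((∏ i, V (z (X + y0 + h i))) * L)) ≤ e * x * (Sx * 3 ^ k) :=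
        mul_le_mul (by linarith) g6 g7 (by positivity)
      have g9 := mul_le_mul_of_nonneg_left g8 (show 0 ≤ 1 + e by linarith)
      linarith
    have g2 : (cnt (sh X h) T y1 (x - y1) : ℝ) * L ≤ (1 + e) * (x * (Sx * (1 + e) ^ k)) + e * x := by
      refine (mul_le_mul_of_nonneg_right d2 hL0.le).trans ?_
      have g3 : ((1 + e) * (((x : ℝ) - y1) * (Sx * ∏ i, V (z (X + y1 + h i)))) + x / Real.log x ^ (k + 1)) * L =
          (1 + e) * (((x : ℝ) - y1) * (Sx * ((∏ i, V (z (X + y1 + h i))) * L))) + x / Real.log x ^ (k + 1) * L := by ring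
      rw [g3]
      have g6 : Sx * ((∏ i, V (z (X + y1 + h i))) * L) ≤ Sx * (1 + e) ^ k := mul_le_mul_of_nonneg_left hP1 hSx0.le
      have g7 : 0 ≤ Sx * ((∏ i, V (z (X + y1 + h i))) * L) :=
        mul_nonneg hSx0.le (mul_nonneg (prod_nonneg fun i _ => (V_pos _).le) hL0.le)
      have g8 : ((x : ℝ) - y1) * (Sx * ((∏ i, V (z (X + y1 + h i))) * L)) ≤ x * (Sx * (1 + e) ^ k) :=
        mul_le_mul (by linarith [(Nat.cast_nonneg y1 : (0 : ℝ) ≤ y1)]) g6 g7 hx0.le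
      have g9 := mul_le_mul_of_nonneg_left g8 (show 0 ≤ 1 + e by linarith)
      linarith
    linarith
  exact close k c e ε Sx S x _ hc he0 hx0 hSc hS1 hS2 hn1 hn2 hn3 hlow hup

end Pool.Agent.H559.UH
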