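import Pool.Agent.H559.SI.Tup

set_option autoImplicit false

/-! # The Hardy-Littlewood asymptotic, uniformly in the tuple: statements with complete paper proofs

`sh X h : Arr k 1` is the array of the linear forms `X + m + h i` (Pool/Agent/H559/SI/Base.lean), `evl_sh`, `cls_sh`,
`rts_card_sh`, `Sg_sh`, `cnt_sh`, `box_sh`, `le_mxh` are proved there. `Sg C w` is the product over the primes `p <= w` of
`(1 - (rts C p 0).card / p) / (1 - 1 / p) ^ k`, and `(rts C p 0).card` is the number of the classes `s < p` such that `p`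
divides `s + h i` for some `i`. -/

open Finset Filter Topology
open Pool.Agent.T2H32.BF (V)
open Pool.Agent.H559.BS (Limit TT)
open Pool.Agent.H559.HY (rts Sg cnt RS Cut)
open Pool.Agent.H559.SI (sh)
open Pool.Agent.H559.PV (OK)

namespace Pool.Agent.H559.UH

/-- LB. Proof. Put `nu = (rts (sh 0 h) p 0).card`; `nu <= k` (the class `s` is determined by `i`: it is `- h i` mod `p`)
and `nu <= p - 1`. For `p <= 2 k` the factor is at least `1 / p >= 1 / (2 k)` (numerator `>= 1 / p`, denominator `<= 1` and positive).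
For `p > 2 k`, with `t = k / p <= 1/2`: `1 - nu / p >= 1 - t >= exp (- t - t ^ 2)` and `(1 - 1 / p) ^ k <= exp (- t)`, so the factor
is at least `exp (- k ^ 2 / p ^ 2)`. The product over all `p <= w` is at least `(1 / (2 k + 1)) ^ (2 k + 1) * exp (- k ^ 2 * sum 1 / p ^ 2)`
and the sum over `p <= w` of `1 / p ^ 2` is at most `2`. So `c = (1 / (2 k + 1)) ^ (2 k + 1) * exp (- 2 k ^ 2)`. -/
def S_lb : Prop := ∀ k : ℕ, ∃ c : ℝ, 0 < c ∧ ∀ h : Fin k → ℕ,
  (∀ p : ℕ, p.Prime → (rts (sh 0 h) p 0).card < p) → ∀ w : ℕ, c ≤ Sg (sh 0 h) w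

/-- TL. Proof. Let `w >= log x` be large (`w >= 4 k + 4`), `f p` the factor of `Sg` at a prime `p > w` and `nu` as above, `nu <= k`,
with equality if `p` divides no difference `h i - h j`, `i ≠ j` (then the `k` classes `- h i` mod `p` are different).
Lower bound: as in LB, `f p >= exp (- k ^ 2 / p ^ 2)`, so `Sg w' / Sg w >= exp (- k ^ 2 * sum_(n > w) 1 / n ^ 2) >= exp (- k ^ 2 / w)`.
Upper bound: `1 - nu / p <= exp (- nu / p)` and `1 - 1 / p >= exp (- 1 / p - 1 / p ^ 2)` (`p >= 2`), so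
`f p <= exp ((k - nu) / p + k / p ^ 2)`, and `(k - nu) / p <= k / w` if `p` divides some difference, `= 0` otherwise.
The number of the primes `p > w` dividing a difference is at most `k ^ 2 * A * log x / log w` (for each pair `i ≠ j` the number
`|h i - h j|` is positive and at most `x ^ A`, and the product of its different prime factors `> w` divides it, so
`w ^ (their number) <= x ^ A`). So `log (Sg w' / Sg w) <= (k / w) * k ^ 2 * A * log x / log w + k / w <= k ^ 3 A / log w + k / w` because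
`w >= log x`; all bounds are monotone in `w >= log x` and tend to `0` as `x` grows. (`Sg` is nonnegative: HY.Sg_nonneg. If
convenient use Pool.Agent.H559.PV.bad_card in PV/Poly.lean, which counts these primes with `log 2` in place of `log w`: this
is enough only if `w / log x` tends to infinity, so use `log w` here.) -/
def S_tl : Prop := ∀ (k A : ℕ) (ε : ℝ), 0 < ε → ∀ᶠ x : ℕ in atTop, ∀ h : Fin k → ℕ, Function.Injective h →
  (∀ i, h i ≤ x ^ A) → ∀ w w' : ℕ, Real.log x ≤ w → w ≤ w' →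
    Real.exp (-ε) * Sg (sh 0 h) w ≤ Sg (sh 0 h) w' ∧ Sg (sh 0 h) w' ≤ Real.exp ε * Sg (sh 0 h) w

/-- DN. Proof. `Limit z` gives `V (z lo) * log lo -> 1`. For `lo <= hi <= K lo`: `1 <= log hi / log lo <= 1 + log K / log lo -> 1`.
For `hi <= lo ^ 2`: `log hi <= 2 log lo`, so `V (z lo) * log hi <= 2 * (3 / 2)` for large `lo`. -/
def S_dn : Prop := ∀ z : ℕ → ℕ, Limit z → ∀ (K : ℕ) (ε : ℝ), 1 ≤ K → 0 < ε → ∃ n0 : ℕ, ∀ lo ≥ n0, ∀ hi : ℕ, lo ≤ hi →
  (hi ≤ K * lo → |V (z lo) * Real.log hi - 1| ≤ ε) ∧ (hi ≤ lo ^ 2 → V (z lo) * Real.log hi ≤ 3)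

/-- EN. Proof. Apply `OK` (definition in PV/Eng.lean) with `D = 1`, exponent `A + 2` and `P0 = 0` to the array `C = sh X h`,
`k0 = y1`, `y = y2 - y1`, `lo i = X + y1 + h i`, `hi i = X + y2 + h i`. Conditions: `C ∈ box k 1 (x ^ (A + 2))` by SI.box_sh because
`X + mxh h <= (k + 1) x ^ A <= x ^ (A + 2)` for large `x`; `Gd C p` for every prime (the coefficient with index `1` is `1`);
`Row C` by the injectivity of `h`; `evl C m = X + m + h i` by SI.evl_sh; `Sg C = Sg (sh 0 h)` by SI.Sg_sh. -/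
def S_en : Prop := ∀ (z W b : ℕ → ℕ), OK z W b → ∀ (k A B n : ℕ), ∀ᶠ x : ℕ in atTop, ∀ X ≤ x ^ A, ∀ h : Fin k → ℕ,
  Function.Injective h → (∀ i, h i ≤ x ^ A) → ∀ y1 y2 : ℕ, TT (1 / 4) x ≤ y1 → y1 ≤ y2 → y2 ≤ x →
    (1 - 1 / ((n : ℝ) + 1)) * (((y2 : ℝ) - y1) * (Sg (sh 0 h) (W (TT (1 / 4) x)) * ∏ i, V (z (X + y2 + h i)))) -
        x / Real.log x ^ B ≤ cnt (sh X h) (RS z W b) y1 (y2 - y1) ∧
      cnt (sh X h) (RS z W b) y1 (y2 - y1) ≤
        (1 + 1 / ((n : ℝ) + 1)) * (((y2 : ℝ) - y1) * (Sg (sh 0 h) (W (TT (1 / 4) x)) * ∏ i, V (z (X + y1 + h i)))) +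
        x / Real.log x ^ B

/-- MN. The main theorem for one sample. Proof. Put `L = prod_i log (X + x + h i)`, so `L <= ((A + 3) log x) ^ k`, `w = W (TT (1/4) x)`;
`w >= log x` for large `x` (`Cut.top` and `log_TT`), `Sg = Sg (sh 0 h) w`. Given `e > 0` small, `J` large with `1 / J <= e`, `x` large.
With `c` from LB: `Sg >= c`. By TL (limit `w' -> infinity`) `exp (-e) Sg <= S <= exp e Sg`, in particular `S >= c`.
`cnt (0, x] = cnt (0, y0] + cnt (y0, y1] + cnt (y1, x]` (HY.cnt_add), `y0 = Nat.sqrt x`, `y1 = x / J`.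
Lower bound: `cnt >= cnt (y1, x] >= (1 - e) (x - x / J) Sg prod V (z (X + x + h i)) - x / log^(k+1) x`; multiply by `L`, with
`V (z (X + x + h i)) * log (X + x + h i) >= 1 - e` (DN with `hi = lo`).
Upper bound: `cnt (0, y0] <= y0` (HY.cnt_le); `cnt (y0, y1] * L <= 2 (x / J) Sg 3 ^ k + x L / log^(k+1) x` by DN
(`X + x + h i <= (X + y0 + 1 + h i) ^ 2`; take `y0 = Nat.sqrt x + 1`);
`cnt (y1, x] * L <= (1 + e) x Sg (1 + e) ^ k + x L / log^(k+1) x` by DN with `K = 2 J`. -/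
def S_mn : Prop := ∀ (z W b : ℕ → ℕ), Limit z → Cut W → OK z W b → ∀ (k A : ℕ) (ε : ℝ), 0 < ε → ∀ᶠ x : ℕ in atTop,
  ∀ X ≤ x ^ A, ∀ h : Fin k → ℕ, Function.Injective h → (∀ i, h i ≤ x ^ A) →
    (∀ p : ℕ, p.Prime → (rts (sh 0 h) p 0).card < p) → ∀ S : ℝ, Tendsto (fun w : ℕ => Sg (sh 0 h) w) atTop (𝓝 S) →
      |(cnt (sh X h) (RS z W b) 0 x : ℝ) * (∏ i, Real.log ((X + x + h i : ℕ) : ℝ)) - S * x| ≤ ε * (S * x)

end Pool.Agent.H559.UH
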