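import Pool.Agent.H559.UH.Stm

set_option autoImplicit false

open Finset Filter Topology
open Pool.Agent.H559.HY (rts Sg)
open Pool.Agent.H559.SI (sh)

namespace Pool.Agent.H559.UH

namespace Tl

theorem one_sub_ge (t : ℝ) (h0 : 0 ≤ t) (h1 : t ≤ 1 / 2) : Real.exp (-t - t ^ 2) ≤ 1 - t := by
  have hu : 0 ≤ t + t ^ 2 := by positivity
  have hq := Real.quadratic_le_exp_of_nonneg hu
  have h2 : 1 ≤ (1 - t) * (1 + (t + t ^ 2) + (t + t ^ 2) ^ 2 / 2) := by
    have e : (1 - t) * (1 + (t + t ^ 2) + (t + t ^ 2) ^ 2 / 2) - 1 =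
        t ^ 2 * (1 - t - t ^ 2 - t ^ 3) / 2 := by ring
    have h3 : 0 ≤ 1 - t - t ^ 2 - t ^ 3 := by
      have a2 : t ^ 2 ≤ 1 / 4 := by nlinarith
      have a3 : t ^ 3 ≤ 1 / 8 := by nlinarith [mul_nonneg h0 h0]
      linarith
    have h4 : 0 ≤ t ^ 2 * (1 - t - t ^ 2 - t ^ 3) / 2 := by positivity
    linarith
  have h3 : 1 ≤ (1 - t) * Real.exp (t + t ^ 2) :=
    h2.trans (mul_le_mul_of_nonneg_left hq (by linarith))
  have e1 : Real.exp (-t - t ^ 2) = (Real.exp (t + t ^ 2))⁻¹ := by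
    rw [← Real.exp_neg]; congr 1; ring
  rw [e1, inv_eq_one_div, div_le_iff₀ (Real.exp_pos _)]
  exact h3

/-- the factor at one prime -/
noncomputable def fac {k : ℕ} (h : Fin k → ℕ) (p : ℕ) : ℝ :=
  (1 - ((rts (sh 0 h) p 0).card : ℝ) / p) / (1 - 1 / (p : ℝ)) ^ k

theorem Sg_eq {k : ℕ} (h : Fin k → ℕ) (w : ℕ) :
    Sg (sh 0 h) w = ∏ p ∈ (range (w + 1)).filter Nat.Prime, fac h p := rfl

theorem mem_rts {k : ℕ} (h : Fin k → ℕ) (p : ℕ) (hp : 0 < p) (s : ℕ) :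
    s ∈ rts (sh 0 h) p 0 ↔ s < p ∧ ∃ i, p ∣ s + h i := by
  unfold rts
  rw [mem_filter, mem_range]
  refine and_congr_right fun _ => exists_congr fun i => ?_
  rw [Pool.Agent.H559.SI.cls_sh 0 h i p s hp, zero_add]

theorem rts_image {k : ℕ} (h : Fin k → ℕ) (p : ℕ) (hp : 0 < p) :
    rts (sh 0 h) p 0 = univ.image (fun i : Fin k => (p - h i % p) % p) := by
  ext s
  rw [mem_rts h p hp, mem_image]
  constructor
  · rintro ⟨hs, i, hi⟩
    refine ⟨i, mem_univ _, ?_⟩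
    have h1 : h i % p < p := Nat.mod_lt _ hp
    have h2 : (s + h i % p) % p = 0 := by
      rw [Nat.add_mod, Nat.mod_mod, ← Nat.add_mod]
      exact Nat.mod_eq_zero_of_dvd hi
    rcases Nat.eq_zero_or_pos (h i % p) with h0 | h0
    · rw [h0, Nat.add_zero, Nat.mod_eq_of_lt hs] at h2
      rw [h0, Nat.sub_zero, Nat.mod_self, h2]
    · rw [Nat.mod_eq_of_lt (by omega)]
      have h3 : p ∣ s + h i % p := Nat.dvd_of_mod_eq_zero h2
      have h4 : s + h i % p = p := by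
        obtain ⟨c, hc⟩ := h3
        have : c = 1 := by
          rcases Nat.lt_trichotomy c 1 with hc1 | hc1 | hc1
          · interval_cases c; omega
          · exact hc1
          · have : p * 2 ≤ p * c := Nat.mul_le_mul_left _ hc1
            omega
        rw [hc, this, mul_one]
      omega
  · rintro ⟨i, -, rfl⟩
    refine ⟨Nat.mod_lt _ hp, i, ?_⟩
    have h1 : h i % p < p := Nat.mod_lt _ hp
    apply Nat.dvd_of_mod_eq_zero
    rw [Nat.add_mod, Nat.mod_mod, ← Nat.add_mod]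
    have : p - h i % p + h i = p + p * (h i / p) := by
      have := Nat.div_add_mod (h i) p
      omega
    rw [this, Nat.add_mul_mod_self_left, Nat.mod_self]

theorem nu_le {k : ℕ} (h : Fin k → ℕ) (p : ℕ) (hp : 0 < p) : (rts (sh 0 h) p 0).card ≤ k := by
  rw [rts_image h p hp]
  exact card_image_le.trans (by simp)

theorem nu_eq {k : ℕ} (h : Fin k → ℕ) (p : ℕ) (hp : 0 < p)
    (hd : ∀ i j : Fin k, i ≠ j → ¬ ((p : ℤ) ∣ (h i : ℤ) - h j)) : (rts (sh 0 h) p 0).card = k := by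
  rw [rts_image h p hp, card_image_of_injective _ ?_]
  · simp
  intro i j hij
  by_contra hne
  refine hd i j hne ?_
  dsimp only at hij
  have h1 : h i % p < p := Nat.mod_lt _ hp
  have h2 : h j % p < p := Nat.mod_lt _ hp
  have h3 : h i % p = h j % p := by
    rcases Nat.eq_zero_or_pos (h i % p) with a0 | a0 <;> rcases Nat.eq_zero_or_pos (h j % p) with b0 | b0
    · rw [a0, b0]
    · have e2 : (p - h j % p) % p = p - h j % p := Nat.mod_eq_of_lt (by omega)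
      rw [a0, Nat.sub_zero, Nat.mod_self, e2] at hij
      omega
    · have e1 : (p - h i % p) % p = p - h i % p := Nat.mod_eq_of_lt (by omega)
      rw [b0, Nat.sub_zero, Nat.mod_self, e1] at hij
      omega
    · have e1 : (p - h i % p) % p = p - h i % p := Nat.mod_eq_of_lt (by omega)
      have e2 : (p - h j % p) % p = p - h j % p := Nat.mod_eq_of_lt (by omega)
      rw [e1, e2] at hij
      omega
  have : (h j : ℤ) ≡ h i [ZMOD p] := by
    have : h j ≡ h i [MOD p] := h3.symm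
    exact_mod_cast (Int.natCast_modEq_iff.2 this)
  exact this.dvd

theorem dvd_count (N w : ℕ) (T : Finset ℕ) (hT : ∀ p ∈ T, p.Prime ∧ w < p ∧ p ∣ N) (hN : 0 < N) :
    w ^ T.card ≤ N := by
  have h1 : ∏ p ∈ T, p ∣ N :=
    Finset.prod_primes_dvd N (fun p hp => (hT p hp).1.prime) (fun p hp => (hT p hp).2.2)
  have h2 : w ^ T.card ≤ ∏ p ∈ T, p := by
    rw [← prod_const]
    exact prod_le_prod' (fun p hp => (hT p hp).2.1.le)
  exact h2.trans (Nat.le_of_dvd hN h1)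

/-- the primes dividing a difference -/
def Bd {k : ℕ} (h : Fin k → ℕ) (p : ℕ) : Prop := ∃ i j : Fin k, i ≠ j ∧ (p : ℤ) ∣ (h i : ℤ) - h j

open Classical in
theorem bad_le {k : ℕ} (h : Fin k → ℕ) (hinj : Function.Injective h) (x A w w' : ℕ) (hx : ∀ i, h i ≤ x ^ A)
    (hw : 1 ≤ w) (hx1 : 1 ≤ x) :
    (((((Ioc w w').filter Nat.Prime).filter (Bd h)).card : ℕ) : ℝ) * Real.log w ≤ (k : ℝ) ^ 2 * (A * Real.log x) := by
  have hlw : 0 ≤ Real.log w := Real.log_nonneg (by exact_mod_cast hw)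
  have hlx : 0 ≤ Real.log x := Real.log_nonneg (by exact_mod_cast hx1)
  have hsub : ((Ioc w w').filter Nat.Prime).filter (Bd h) ⊆
      (univ : Finset (Fin k)).offDiag.biUnion (fun q => ((Ioc w w').filter Nat.Prime).filter
        (fun p => p ∣ ((h q.1 : ℤ) - h q.2).natAbs)) := by
    intro p hp
    rw [mem_filter] at hp
    obtain ⟨hp1, i, j, hij, hd⟩ := hp
    rw [mem_biUnion]
    refine ⟨(i, j), by simp [hij], mem_filter.2 ⟨hp1, ?_⟩⟩
    exact Int.natCast_dvd.1 hd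
  have hone : ∀ q ∈ (univ : Finset (Fin k)).offDiag,
      (((((Ioc w w').filter Nat.Prime).filter (fun p => p ∣ ((h q.1 : ℤ) - h q.2).natAbs)).card : ℕ) : ℝ) *
        Real.log w ≤ A * Real.log x := by
    intro q hq
    have hne : q.1 ≠ q.2 := by simpa using hq
    have hne2 : h q.1 ≠ h q.2 := fun e => hne (hinj e)
    have hN : 0 < ((h q.1 : ℤ) - h q.2).natAbs := by omega
    have hle : ((h q.1 : ℤ) - h q.2).natAbs ≤ x ^ A := by
      have a1 := hx q.1
      have a2 := hx q.2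
      generalize x ^ A = B at a1 a2 ⊢
      omega
    have hc := dvd_count _ w (((Ioc w w').filter Nat.Prime).filter (fun p => p ∣ ((h q.1 : ℤ) - h q.2).natAbs))
      (fun p hp => by
        rw [mem_filter, mem_filter, mem_Ioc] at hp
        exact ⟨hp.1.2, hp.1.1.1, hp.2⟩) hN
    have hc2 := hc.trans hle
    have hc3 : ((w : ℝ)) ^ (((Ioc w w').filter Nat.Prime).filter
        (fun p => p ∣ ((h q.1 : ℤ) - h q.2).natAbs)).card ≤ (x : ℝ) ^ A := by exact_mod_cast hc2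
    have hw0 : (0 : ℝ) < w := by exact_mod_cast hw
    have h3 := Real.log_le_log (by positivity) hc3
    rwa [Real.log_pow, Real.log_pow] at h3
  have hcard : (((univ : Finset (Fin k)).offDiag.card : ℕ) : ℝ) ≤ (k : ℝ) ^ 2 := by
    have : (univ : Finset (Fin k)).offDiag.card ≤ k ^ 2 := by
      rw [offDiag_card, card_univ, Fintype.card_fin, sq]
      exact Nat.sub_le _ _
    exact_mod_cast this
  calc (((((Ioc w w').filter Nat.Prime).filter (Bd h)).card : ℕ) : ℝ) * Real.log w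
      ≤ ((∑ q ∈ (univ : Finset (Fin k)).offDiag, (((Ioc w w').filter Nat.Prime).filter
        (fun p => p ∣ ((h q.1 : ℤ) - h q.2).natAbs)).card : ℕ) : ℝ) * Real.log w := by
        refine mul_le_mul_of_nonneg_right ?_ hlw
        exact_mod_cast (card_le_card hsub).trans card_biUnion_le
    _ = ∑ q ∈ (univ : Finset (Fin k)).offDiag, ((((Ioc w w').filter Nat.Prime).filter
        (fun p => p ∣ ((h q.1 : ℤ) - h q.2).natAbs)).card : ℝ) * Real.log w := by
        rw [Nat.cast_sum, sum_mul]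
    _ ≤ ∑ q ∈ (univ : Finset (Fin k)).offDiag, (A * Real.log x : ℝ) := sum_le_sum hone
    _ = (((univ : Finset (Fin k)).offDiag.card : ℕ) : ℝ) * (A * Real.log x) := by rw [sum_const, nsmul_eq_mul]
    _ ≤ _ := mul_le_mul_of_nonneg_right hcard (by positivity)

theorem fac_low {k : ℕ} (h : Fin k → ℕ) (p : ℕ) (hp : 4 * k + 4 ≤ p) :
    Real.exp (-((k : ℝ) ^ 2 * ((p : ℝ) ^ 2)⁻¹)) ≤ fac h p := by
  have hp0 : 0 < p := by omega
  have hpR : (0 : ℝ) < p := by exact_mod_cast hp0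
  have hp4 : 4 * (k : ℝ) + 4 ≤ p := by exact_mod_cast hp
  have hk0 : (0 : ℝ) ≤ k := Nat.cast_nonneg k
  have hnu : ((rts (sh 0 h) p 0).card : ℝ) ≤ k := by exact_mod_cast nu_le h p hp0
  have ht0 : 0 ≤ (k : ℝ) / p := by positivity
  have ht1 : (k : ℝ) / p ≤ 1 / 2 := by
    rw [div_le_div_iff₀ hpR (by norm_num)]
    linarith
  have h1 : Real.exp (-((k : ℝ) / p) - ((k : ℝ) / p) ^ 2) ≤ 1 - ((rts (sh 0 h) p 0).card : ℝ) / p := by
    refine (one_sub_ge _ ht0 ht1).trans ?_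
    have : ((rts (sh 0 h) p 0).card : ℝ) / p ≤ (k : ℝ) / p := div_le_div_of_nonneg_right hnu hpR.le
    linarith
  have h2 : 0 < 1 - 1 / (p : ℝ) := by
    have : 1 / (p : ℝ) < 1 := by rw [div_lt_one hpR]; linarith
    linarith
  have h3 : (1 - 1 / (p : ℝ)) ^ k ≤ Real.exp (-((k : ℝ) / p)) := by
    have : 1 - 1 / (p : ℝ) ≤ Real.exp (-(1 / (p : ℝ))) := by
      have := Real.add_one_le_exp (-(1 / (p : ℝ)))
      linarith
    refine (pow_le_pow_left₀ h2.le this k).trans (le_of_eq ?_)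
    rw [← Real.exp_nat_mul]
    congr 1
    ring
  unfold fac
  rw [le_div_iff₀ (pow_pos h2 k)]
  calc Real.exp (-((k : ℝ) ^ 2 * ((p : ℝ) ^ 2)⁻¹)) * (1 - 1 / (p : ℝ)) ^ k
      ≤ Real.exp (-((k : ℝ) ^ 2 * ((p : ℝ) ^ 2)⁻¹)) * Real.exp (-((k : ℝ) / p)) :=
        mul_le_mul_of_nonneg_left h3 (Real.exp_pos _).le
    _ = Real.exp (-((k : ℝ) / p) - ((k : ℝ) / p) ^ 2) := by
        rw [← Real.exp_add]
        congr 1
        field_simp
        ring
    _ ≤ _ := h1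

theorem fac_nonneg {k : ℕ} (h : Fin k → ℕ) (p : ℕ) (hp : 4 * k + 4 ≤ p) : 0 ≤ fac h p :=
  (Real.exp_pos _).le.trans (fac_low h p hp)

theorem fac_up {k : ℕ} (h : Fin k → ℕ) (p : ℕ) (hp : 4 * k + 4 ≤ p) :
    fac h p ≤ Real.exp (((k : ℝ) - (rts (sh 0 h) p 0).card) / p + k * ((p : ℝ) ^ 2)⁻¹) := by
  have hp0 : 0 < p := by omega
  have hpR : (0 : ℝ) < p := by exact_mod_cast hp0
  have hp4 : 4 * (k : ℝ) + 4 ≤ p := by exact_mod_cast hp
  have hk0 : (0 : ℝ) ≤ k := Nat.cast_nonneg k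
  have ht0 : 0 ≤ 1 / (p : ℝ) := by positivity
  have ht1 : 1 / (p : ℝ) ≤ 1 / 2 := by
    rw [div_le_div_iff₀ hpR (by norm_num)]
    linarith
  have h1 : 1 - ((rts (sh 0 h) p 0).card : ℝ) / p ≤ Real.exp (-(((rts (sh 0 h) p 0).card : ℝ) / p)) := by
    have := Real.add_one_le_exp (-(((rts (sh 0 h) p 0).card : ℝ) / p))
    linarith
  have h2 : Real.exp (-(1 / (p : ℝ)) - (1 / (p : ℝ)) ^ 2) ≤ 1 - 1 / (p : ℝ) := one_sub_ge _ ht0 ht1
  have h3 : Real.exp (k * (-(1 / (p : ℝ)) - (1 / (p : ℝ)) ^ 2)) ≤ (1 - 1 / (p : ℝ)) ^ k := by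
    rw [Real.exp_nat_mul]
    exact pow_le_pow_left₀ (Real.exp_pos _).le h2 k
  have h4 : 0 < (1 - 1 / (p : ℝ)) ^ k := (Real.exp_pos _).trans_le h3
  unfold fac
  rw [div_le_iff₀ h4]
  refine h1.trans ?_
  calc Real.exp (-(((rts (sh 0 h) p 0).card : ℝ) / p))
      = Real.exp (((k : ℝ) - (rts (sh 0 h) p 0).card) / p + k * ((p : ℝ) ^ 2)⁻¹) *
        Real.exp (k * (-(1 / (p : ℝ)) - (1 / (p : ℝ)) ^ 2)) := by
        rw [← Real.exp_add]
        congr 1
        field_simp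
        ring
    _ ≤ _ := mul_le_mul_of_nonneg_left h3 (Real.exp_pos _).le

theorem Sg_split {k : ℕ} (h : Fin k → ℕ) (w w' : ℕ) (hw : w ≤ w') :
    Sg (sh 0 h) w' = Sg (sh 0 h) w * ∏ p ∈ (Ioc w w').filter Nat.Prime, fac h p := by
  rw [Sg_eq, Sg_eq, ← prod_union]
  · congr 1
    ext p
    simp only [mem_filter, mem_range, mem_union, mem_Ioc]
    constructor
    · rintro ⟨h1, h2⟩
      by_cases h3 : p < w + 1
      · exact Or.inl ⟨h3, h2⟩
      · exact Or.inr ⟨⟨by omega, by omega⟩, h2⟩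
    · rintro (⟨h1, h2⟩ | ⟨⟨h1, h3⟩, h2⟩)
      · exact ⟨by omega, h2⟩
      · exact ⟨by omega, h2⟩
  · rw [disjoint_left]
    intro p hp hp'
    rw [mem_filter, mem_range] at hp
    rw [mem_filter, mem_Ioc] at hp'
    omega

theorem sq_sum (w w' : ℕ) (hw : w ≤ w') (h0 : w ≠ 0) :
    ∑ p ∈ (Ioc w w').filter Nat.Prime, ((p : ℝ) ^ 2)⁻¹ ≤ (w : ℝ)⁻¹ := by
  refine (sum_le_sum_of_subset_of_nonneg (filter_subset _ _) fun _ _ _ => by positivity).trans ?_
  refine (sum_Ioc_inv_sq_le_sub (α := ℝ) h0 hw).trans ?_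
  have : (0 : ℝ) ≤ (w' : ℝ)⁻¹ := by positivity
  linarith

theorem prod_low {k : ℕ} (h : Fin k → ℕ) (w w' : ℕ) (hw : w ≤ w') (h4 : 4 * k + 4 ≤ w) :
    Real.exp (-((k : ℝ) ^ 2 / w)) ≤ ∏ p ∈ (Ioc w w').filter Nat.Prime, fac h p := by
  have h1 : ∏ p ∈ (Ioc w w').filter Nat.Prime, Real.exp (-((k : ℝ) ^ 2 * ((p : ℝ) ^ 2)⁻¹)) ≤
      ∏ p ∈ (Ioc w w').filter Nat.Prime, fac h p := by
    refine prod_le_prod (fun p _ => (Real.exp_pos _).le) fun p hp => fac_low h p ?_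
    rw [mem_filter, mem_Ioc] at hp
    omega
  refine le_trans ?_ h1
  rw [← Real.exp_sum, sum_neg_distrib, ← mul_sum]
  refine Real.exp_le_exp.2 (neg_le_neg ?_)
  rw [div_eq_mul_inv]
  exact mul_le_mul_of_nonneg_left (sq_sum w w' hw (by omega)) (by positivity)

theorem prod_up {k : ℕ} (h : Fin k → ℕ) (hinj : Function.Injective h) (x A w w' : ℕ) (hx : ∀ i, h i ≤ x ^ A)
    (hx1 : 1 ≤ x) (hw : w ≤ w') (h4 : 4 * k + 4 ≤ w) (hlw : Real.log x ≤ w) (hlog : 0 < Real.log w) :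
    ∏ p ∈ (Ioc w w').filter Nat.Prime, fac h p ≤ Real.exp ((k : ℝ) ^ 3 * A / Real.log w + k / w) := by
  classical
  have hw0 : (0 : ℝ) < w := by
    have : 0 < w := by omega
    exact_mod_cast this
  have hk0 : (0 : ℝ) ≤ k := Nat.cast_nonneg k
  have h1 : ∏ p ∈ (Ioc w w').filter Nat.Prime, fac h p ≤ ∏ p ∈ (Ioc w w').filter Nat.Prime,
      Real.exp (((k : ℝ) - (rts (sh 0 h) p 0).card) / p + k * ((p : ℝ) ^ 2)⁻¹) := by
    refine prod_le_prod (fun p hp => fac_nonneg h p ?_) fun p hp => fac_up h p ?_ <;>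
    · rw [mem_filter, mem_Ioc] at hp
      omega
  refine h1.trans ?_
  rw [← Real.exp_sum, sum_add_distrib, ← mul_sum]
  refine Real.exp_le_exp.2 (add_le_add ?_ ?_)
  · have h2 : ∑ p ∈ (Ioc w w').filter Nat.Prime, ((k : ℝ) - (rts (sh 0 h) p 0).card) / p ≤
        ∑ p ∈ (Ioc w w').filter Nat.Prime, if Bd h p then (k : ℝ) / w else 0 := by
      refine sum_le_sum fun p hp => ?_
      rw [mem_filter, mem_Ioc] at hp
      have hp0 : 0 < p := by omega
      have hpR : (0 : ℝ) < p := by exact_mod_cast hp0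
      split_ifs with hb
      · have a1 : (k : ℝ) - (rts (sh 0 h) p 0).card ≤ k := by
          have : (0 : ℝ) ≤ ((rts (sh 0 h) p 0).card : ℝ) := Nat.cast_nonneg _
          linarith
        have a2 : (w : ℝ) ≤ p := by exact_mod_cast hp.1.1.le
        exact (div_le_div_of_nonneg_right a1 hpR.le).trans (div_le_div_of_nonneg_left hk0 hw0 a2)
      · rw [nu_eq h p hp0 (fun i j hij hd => hb ⟨i, j, hij, hd⟩)]
        simp
    refine h2.trans ?_
    rw [← sum_filter, sum_const, nsmul_eq_mul]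
    have h3 := bad_le h hinj x A w w' hx (by omega) hx1
    rw [le_div_iff₀ hlog]
    calc ((((Ioc w w').filter Nat.Prime).filter (Bd h)).card : ℝ) * ((k : ℝ) / w) * Real.log w
        = ((((Ioc w w').filter Nat.Prime).filter (Bd h)).card : ℝ) * Real.log w * ((k : ℝ) / w) := by ring
      _ ≤ (k : ℝ) ^ 2 * (A * Real.log x) * ((k : ℝ) / w) := mul_le_mul_of_nonneg_right h3 (by positivity)
      _ ≤ (k : ℝ) ^ 2 * (A * w) * ((k : ℝ) / w) := by
          refine mul_le_mul_of_nonneg_right ?_ (by positivity)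
          refine mul_le_mul_of_nonneg_left ?_ (by positivity)
          exact mul_le_mul_of_nonneg_left hlw (Nat.cast_nonneg A)
      _ = (k : ℝ) ^ 3 * A := by
          field_simp
  · rw [div_eq_mul_inv]
    exact mul_le_mul_of_nonneg_left (sq_sum w w' hw (by omega)) hk0

end Tl

theorem t_tl : S_tl := by
  intro k A ε hε
  set M : ℝ := max (max (4 * (k : ℝ) + 4) (Real.exp (2 * ((k : ℝ) ^ 3 * A) / ε + 1)))
    (max (2 * (k : ℝ) / ε) ((k : ℝ) ^ 2 / ε)) with hM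
  have hev : ∀ᶠ x : ℕ in atTop, M ≤ Real.log x :=
    (Real.tendsto_log_atTop.comp tendsto_natCast_atTop_atTop).eventually (eventually_ge_atTop M)
  filter_upwards [hev, eventually_ge_atTop 1] with x hxM hx1 h hinj hx w w' hw hww
  have hwM : M ≤ w := hxM.trans hw
  have m1 : 4 * (k : ℝ) + 4 ≤ w := ((le_max_left _ _).trans (le_max_left _ _)).trans hwM
  have m2 : Real.exp (2 * ((k : ℝ) ^ 3 * A) / ε + 1) ≤ w := ((le_max_right _ _).trans (le_max_left _ _)).trans hwM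
  have m3 : 2 * (k : ℝ) / ε ≤ w := ((le_max_left _ _).trans (le_max_right _ _)).trans hwM
  have m4 : (k : ℝ) ^ 2 / ε ≤ w := ((le_max_right _ _).trans (le_max_right _ _)).trans hwM
  have hk0 : (0 : ℝ) ≤ k := Nat.cast_nonneg k
  have hA0 : (0 : ℝ) ≤ A := Nat.cast_nonneg A
  have h4 : 4 * k + 4 ≤ w := by exact_mod_cast m1
  have hw0 : (0 : ℝ) < w := by linarith
  have hlog : 2 * ((k : ℝ) ^ 3 * A) / ε + 1 ≤ Real.log w := by
    rw [Real.le_log_iff_exp_le hw0]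
    exact m2
  have hq : 0 ≤ 2 * ((k : ℝ) ^ 3 * A) / ε := by positivity
  have hlog0 : 0 < Real.log w := by linarith
  have hS := Pool.Agent.H559.HY.Sg_nonneg (sh 0 h) w
  rw [Tl.Sg_split h w w' hww]
  have hlo := Tl.prod_low h w w' hww h4
  have hup := Tl.prod_up h hinj x A w w' hx hx1 hww h4 hw hlog0
  have c1 : (k : ℝ) ^ 2 / w ≤ ε := by
    rw [div_le_iff₀ hε] at m4
    rw [div_le_iff₀ hw0]
    linarith
  have c2 : (k : ℝ) / w ≤ ε / 2 := by
    rw [div_le_iff₀ hε] at m3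
    rw [div_le_iff₀ hw0]
    linarith
  have c3 : (k : ℝ) ^ 3 * A / Real.log w ≤ ε / 2 := by
    rw [div_le_iff₀ hlog0]
    have : ε / 2 * (2 * ((k : ℝ) ^ 3 * A) / ε + 1) ≤ ε / 2 * Real.log w := mul_le_mul_of_nonneg_left hlog (by positivity)
    have e : ε / 2 * (2 * ((k : ℝ) ^ 3 * A) / ε + 1) = (k : ℝ) ^ 3 * A + ε / 2 := by
      field_simp
    linarith
  constructor
  · rw [mul_comm]
    refine mul_le_mul_of_nonneg_left ?_ hS
    exact (Real.exp_le_exp.2 (neg_le_neg c1)).trans hlo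
  · rw [mul_comm]
    refine mul_le_mul_of_nonneg_right ?_ hS
    exact hup.trans (Real.exp_le_exp.2 (by linarith))

end Pool.Agent.H559.UH
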